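import Pool.Agent.J4H58.XC.Stm3

/-!
# Project XC, (X9): Poincare's inequality on the cube gives the one on fine grids
-/

set_option autoImplicit false

namespace Pool.Agent.J4H46.XC

open MeasureTheory Set Filter Topology
open Pool.Agent.J4H58.XC

variable {n : ℕ}

/-- the lower corners of the cells of the cube -/
def cb (n N : ℕ) : Finset (Fin n → ℕ) := Fintype.piFinset fun _ => Finset.range N

lemma mem_cb {N : ℕ} {x : Fin n → ℕ} : x ∈ cb n N ↔ ∀ i, x i < N := by simp [cb]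

lemma mem_box {N : ℕ} {x : Fin n → ℕ} : x ∈ box n N ↔ ∀ i, x i ≤ N := by
  simp [box]

/-- half open cells -/
def hc (N : ℕ) (x : Fin n → ℕ) : Set (Fin n → ℝ) :=
  Set.pi univ fun i => Ico ((nd N x) i) ((nd N fun i => x i + 1) i)

lemma hc_ae (N : ℕ) (x : Fin n → ℕ) : hc N x =ᵐ[volume] cell N x := by
  unfold hc cell
  exact Measure.univ_pi_Ico_ae_eq_Icc

lemma mem_hc {N : ℕ} (hN : 0 < N) {x : Fin n → ℕ} {u : Fin n → ℝ} :
    u ∈ hc N x ↔ ∀ i, (x i : ℝ) ≤ N * u i ∧ N * u i < x i + 1 := by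
  have hN' : (0 : ℝ) < N := by exact_mod_cast hN
  simp only [hc, nd, Set.mem_pi, mem_univ, true_implies, mem_Ico, Nat.cast_add, Nat.cast_one]
  constructor
  · intro h i
    obtain ⟨h1, h2⟩ := h i
    rw [div_le_iff₀ hN'] at h1
    rw [lt_div_iff₀ hN'] at h2
    constructor <;> linarith
  · intro h i
    obtain ⟨h1, h2⟩ := h i
    rw [div_le_iff₀ hN', lt_div_iff₀ hN']
    constructor <;> linarith

lemma hc_meas (N : ℕ) (x : Fin n → ℕ) : MeasurableSet (hc N x) :=
  MeasurableSet.univ_pi fun _ => measurableSet_Ico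

lemma hc_floor {N : ℕ} (hN : 0 < N) {x : Fin n → ℕ} {u : Fin n → ℝ} (h : u ∈ hc N x) (i : Fin n) :
    x i = ⌊(N : ℝ) * u i⌋₊ := by
  obtain ⟨h1, h2⟩ := (mem_hc hN).1 h i
  symm
  rw [Nat.floor_eq_iff (le_trans (Nat.cast_nonneg _) h1)]
  exact ⟨h1, h2⟩

lemma hc_union {N : ℕ} (hN : 0 < N) :
    ⋃ x ∈ cb n N, hc N x = Set.pi univ fun _ : Fin n => Ico (0 : ℝ) 1 := by
  have hN' : (0 : ℝ) < N := by exact_mod_cast hN
  ext u
  simp only [mem_iUnion, Set.mem_pi, mem_univ, true_implies, mem_Ico, exists_prop]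
  constructor
  · rintro ⟨x, hx, hu⟩ i
    obtain ⟨h1, h2⟩ := (mem_hc hN).1 hu i
    have h3 : x i + 1 ≤ N := mem_cb.1 hx i
    have h4 : ((x i : ℝ)) + 1 ≤ N := by exact_mod_cast h3
    constructor
    · by_contra hneg
      push Not at hneg
      have : (N : ℝ) * u i < 0 := mul_neg_of_pos_of_neg hN' hneg
      have h5 : (0 : ℝ) ≤ x i := Nat.cast_nonneg _
      linarith
    · by_contra hneg
      push Not at hneg
      nlinarith
  · intro h
    refine ⟨fun i => ⌊(N : ℝ) * u i⌋₊, mem_cb.2 (fun i => ?_), (mem_hc hN).2 (fun i => ?_)⟩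
    · obtain ⟨h1, h2⟩ := h i
      rw [Nat.floor_lt (by positivity)]
      nlinarith
    · obtain ⟨h1, h2⟩ := h i
      exact ⟨Nat.floor_le (by positivity), Nat.lt_floor_add_one _⟩

lemma int_cells {N : ℕ} (hN : 0 < N) (F : (Fin n → ℝ) → ℝ) (hF : Continuous F) :
    ∫ u in Icc (0 : Fin n → ℝ) 1, F u = ∑ x ∈ cb n N, ∫ u in cell N x, F u := by
  have h1 : (Set.pi univ fun _ : Fin n => Ico (0 : ℝ) 1) =ᵐ[volume] Icc (0 : Fin n → ℝ) 1 :=
    Measure.univ_pi_Ico_ae_eq_Icc
  rw [← setIntegral_congr_set h1, ← hc_union hN, integral_biUnion_finset]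
  · apply Finset.sum_congr rfl
    intro x _
    exact setIntegral_congr_set (hc_ae N x)
  · intro x _
    exact hc_meas N x
  · intro x _ y _ hxy
    rw [Function.onFun, Set.disjoint_left]
    intro u hu hv
    apply hxy
    funext i
    rw [hc_floor hN hu i, hc_floor hN hv i]
  · intro x _
    have : IntegrableOn F (cell N x) := hF.continuousOn.integrableOn_compact isCompact_Icc
    exact this.congr_set_ae (hc_ae N x)

lemma cell_le (N : ℕ) (x : Fin n → ℕ) : nd N x ≤ nd N fun i => x i + 1 := by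
  intro i
  simp only [nd, Nat.cast_add, Nat.cast_one]
  apply div_le_div_of_nonneg_right _ (Nat.cast_nonneg _)
  linarith

lemma cell_vol {N : ℕ} (hN : 0 < N) (x : Fin n → ℕ) :
    (volume (cell N x)).toReal = 1 / (N : ℝ) ^ n := by
  have hN' : (0 : ℝ) < N := by exact_mod_cast hN
  unfold cell
  rw [Real.volume_Icc_pi_toReal (cell_le N x)]
  have : ∀ i : Fin n, (nd N fun i => x i + 1) i - nd N x i = 1 / N := by
    intro i
    simp only [nd, Nat.cast_add, Nat.cast_one]
    ring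
  simp only [this, Finset.prod_const, Finset.card_univ, Fintype.card_fin]
  rw [div_pow, one_pow]

lemma cell_sub {N : ℕ} (hN : 0 < N) {x : Fin n → ℕ} (hx : x ∈ cb n N) :
    cell N x ⊆ Icc (0 : Fin n → ℝ) 1 := by
  have hN' : (0 : ℝ) < N := by exact_mod_cast hN
  intro u hu
  obtain ⟨h1, h2⟩ := hu
  constructor
  · intro i
    refine le_trans ?_ (h1 i)
    simp only [nd, Pi.zero_apply]; positivity
  · intro i
    refine le_trans (h2 i) ?_
    simp only [nd, Pi.one_apply, Nat.cast_add, Nat.cast_one]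
    rw [div_le_one hN']
    have : x i + 1 ≤ N := mem_cb.1 hx i
    exact_mod_cast this

lemma vx_mem (N : ℕ) (x : Fin n → ℕ) (A : Finset (Fin n)) : nd N (vx x A) ∈ cell N x := by
  constructor
  · intro i
    simp only [nd, vx]
    apply div_le_div_of_nonneg_right _ (Nat.cast_nonneg _)
    push_cast
    split_ifs <;> simp
  · intro i
    simp only [nd, vx]
    apply div_le_div_of_nonneg_right _ (Nat.cast_nonneg _)
    push_cast
    split_ifs <;> simp

lemma lo_mem (N : ℕ) (x : Fin n → ℕ) : nd N x ∈ cell N x := ⟨le_refl _, cell_le N x⟩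

/-- the ratio of the values in a cell -/
lemma ratio (ρ : (Fin n → ℝ) → ℝ) (hρ : Continuous ρ) (hpos : ∀ x, 0 < ρ x) (δ : ℝ) (hδ : 0 < δ) :
    ∀ᶠ N : ℕ in atTop, 0 < N ∧ ∀ x ∈ cb n N, ∀ u ∈ cell N x, ∀ v ∈ cell N x, ρ u ≤ (1 + δ) * ρ v := by
  have hK : IsCompact (Icc (0 : Fin n → ℝ) 1) := isCompact_Icc
  have hne : (Icc (0 : Fin n → ℝ) 1).Nonempty := ⟨0, le_refl _, fun i => by simp⟩
  obtain ⟨z, hz, hmin⟩ := hK.exists_isMinOn hne hρ.continuousOn
  have hm : 0 < ρ z := hpos z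
  have huc := hK.uniformContinuousOn_of_continuous hρ.continuousOn
  rw [Metric.uniformContinuousOn_iff] at huc
  obtain ⟨d, hd, hdist⟩ := huc (δ * ρ z) (by positivity)
  have hev : ∀ᶠ N : ℕ in atTop, 1 / (N : ℝ) < d := by
    have := tendsto_one_div_atTop_nhds_zero_nat (𝕜 := ℝ)
    exact this.eventually_lt_const hd
  filter_upwards [hev, eventually_gt_atTop 0] with N hN hN0
  refine ⟨hN0, fun x hx u hu v hv => ?_⟩
  have hN' : (0 : ℝ) < N := by exact_mod_cast hN0
  have huv : dist u v ≤ 1 / N := by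
    rw [dist_pi_le_iff (by positivity)]
    intro i
    rw [Real.dist_eq, abs_le]
    have h1 := hu.1 i
    have h2 := hu.2 i
    have h3 := hv.1 i
    have h4 := hv.2 i
    simp only [nd, Nat.cast_add, Nat.cast_one] at h1 h2 h3 h4
    rw [add_div] at h2 h4
    constructor <;> linarith
  have h5 := hdist u (cell_sub hN0 hx hu) v (cell_sub hN0 hx hv) (lt_of_le_of_lt huv hN)
  rw [Real.dist_eq, abs_lt] at h5
  have h6 : ρ z ≤ ρ v := hmin (cell_sub hN0 hx hv)
  nlinarith [h5.2]

/-- counting edges -/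
lemma edges (N : ℕ) (φ : (Fin n → ℕ) → Fin n → ℝ) (hφ : ∀ z i, 0 ≤ φ z i) :
    ∑ x ∈ cb n N, ∑ i : Fin n, ∑ A ∈ (Finset.univ : Finset (Finset (Fin n))).filter (fun A => i ∉ A),
      φ (vx x A) i ≤ 2 ^ (n - 1) * ∑ z ∈ box n N, ∑ i : Fin n, (if z i < N then φ z i else 0) := by
  rw [Finset.sum_comm, Finset.sum_comm (s := box n N), Finset.mul_sum]
  apply Finset.sum_le_sum
  intro i _
  rw [Finset.sum_comm]
  have hcard : ((Finset.univ : Finset (Finset (Fin n))).filter (fun A => i ∉ A)).card = 2 ^ (n - 1) := by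
    have h : (Finset.univ : Finset (Finset (Fin n))).filter (fun A => i ∉ A) =
        ((Finset.univ : Finset (Fin n)).erase i).powerset := by
      ext A
      simp only [Finset.mem_filter, Finset.mem_univ, true_and, Finset.mem_powerset]
      constructor
      · intro h j hj
        rw [Finset.mem_erase]
        exact ⟨fun e => h (e ▸ hj), Finset.mem_univ _⟩
      · intro h hi
        have := h hi
        simp at this
    rw [h, Finset.card_powerset, Finset.card_erase_of_mem (Finset.mem_univ _)]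
    simp
  have hle : ∀ A ∈ (Finset.univ : Finset (Finset (Fin n))).filter (fun A => i ∉ A),
      ∑ x ∈ cb n N, φ (vx x A) i ≤ ∑ z ∈ box n N, (if z i < N then φ z i else 0) := by
    intro A hA
    have hiA : i ∉ A := (Finset.mem_filter.1 hA).2
    rw [← Finset.sum_filter]
    have hinj : Set.InjOn (fun x : Fin n → ℕ => vx x A) (cb n N : Set (Fin n → ℕ)) := by
      intro x _ y _ hxy
      funext j
      have := congrFun hxy j
      simp only [vx] at this
      omega
    have himg : ∑ x ∈ cb n N, φ (vx x A) i = ∑ z ∈ (cb n N).image (fun x => vx x A), φ z i := by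
      rw [Finset.sum_image hinj]
    rw [himg]
    apply Finset.sum_le_sum_of_subset_of_nonneg
    · intro z hz
      rw [Finset.mem_image] at hz
      obtain ⟨x, hx, rfl⟩ := hz
      rw [Finset.mem_filter, mem_box]
      have hx' := mem_cb.1 hx
      refine ⟨fun j => ?_, ?_⟩
      · have := hx' j
        simp only [vx]
        split_ifs <;> omega
      · have := hx' i
        simp only [vx, hiA, if_false]
        omega
    · intro z _ _
      exact hφ z i
  refine (Finset.sum_le_sum hle).trans (le_of_eq ?_)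
  rw [Finset.sum_const, hcard, nsmul_eq_mul]
  push_cast
  rfl

lemma cell_compact (N : ℕ) (x : Fin n → ℕ) : IsCompact (cell N x) := isCompact_Icc

lemma int_on {F : (Fin n → ℝ) → ℝ} (hF : Continuous F) (N : ℕ) (x : Fin n → ℕ) :
    IntegrableOn F (cell N x) := hF.continuousOn.integrableOn_compact isCompact_Icc

lemma cell_meas (N : ℕ) (x : Fin n → ℕ) : MeasurableSet (cell N x) := measurableSet_Icc

lemma int_const {N : ℕ} (hN : 0 < N) (x : Fin n → ℕ) (c : ℝ) : ∫ _ in cell N x, c = c / (N : ℝ) ^ n := by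
  rw [setIntegral_const, smul_eq_mul, measureReal_def, cell_vol hN]
  ring

lemma mono_cell {F G : (Fin n → ℝ) → ℝ} (hF : Continuous F) (hG : Continuous G) (N : ℕ) (x : Fin n → ℕ)
    (h : ∀ u ∈ cell N x, F u ≤ G u) : ∫ u in cell N x, F u ≤ ∫ u in cell N x, G u :=
  setIntegral_mono_on (int_on hF N x) (int_on hG N x) (cell_meas N x) h

lemma square_ineq (a b c δ : ℝ) (hδ : 0 < δ) :
    (a - b) ^ 2 ≤ (1 + δ) * (c - b) ^ 2 + (1 + 1 / δ) * (c - a) ^ 2 := by
  have h : (1 + δ) * (c - b) ^ 2 + (1 + 1 / δ) * (c - a) ^ 2 - (a - b) ^ 2 =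
      (δ * (c - b) + (c - a)) ^ 2 / δ := by
    field_simp
    ring
  have h2 : 0 ≤ (δ * (c - b) + (c - a)) ^ 2 / δ := by positivity
  linarith

theorem t_X9 : S_X9 := by
  intro h9a n ρ K K' hρ hpos hK hKK hPD
  -- choice of δ
  have hδex : ∃ δ : ℝ, 0 < δ ∧ K * (1 + δ) ^ 6 < K' := by
    have hc : Tendsto (fun δ : ℝ => K * (1 + δ) ^ 6) (𝓝[>] 0) (𝓝 K) := by
      have h : Continuous (fun δ : ℝ => K * (1 + δ) ^ 6) := by fun_prop
      have := (h.tendsto 0).mono_left (nhdsWithin_le_nhds (s := Ioi 0))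
      simpa using this
    have h1 := (hc.eventually_lt_const hKK).and self_mem_nhdsWithin
    obtain ⟨δ, h2, h3⟩ := h1.exists
    exact ⟨δ, h3, h2⟩
  obtain ⟨δ, hδ, hδK⟩ := hδex
  set C : ℝ := (1 + δ) ^ 3 * (1 + 1 / δ) * n * 2 ^ (n - 1) with hC
  have hC0 : 0 ≤ C := by positivity
  have hevC : ∀ᶠ N : ℕ in atTop, C / (N : ℝ) ^ 2 < K' - K * (1 + δ) ^ 6 := by
    have h : Tendsto (fun N : ℕ => C / (N : ℝ) ^ 2) atTop (𝓝 0) := by
      have h2 : Tendsto (fun N : ℕ => (N : ℝ) ^ 2) atTop atTop :=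
        (tendsto_pow_atTop two_ne_zero).comp tendsto_natCast_atTop_atTop
      exact h2.const_div_atTop C
    exact h.eventually_lt_const (by linarith)
  filter_upwards [ratio ρ hρ hpos δ hδ, hevC] with N hN hNC
  obtain ⟨hN0, hrat⟩ := hN
  have hN' : (0 : ℝ) < N := by exact_mod_cast hN0
  intro f
  obtain ⟨g, hg, hgx⟩ := h9a n N δ f hN0 hδ
  have hgc : Continuous g := hg.continuous
  have hpdc : ∀ i : Fin n, Continuous (fun u => pd g i u) := by
    intro i
    unfold pd
    exact (hg.continuous_fderiv one_ne_zero).clm_apply continuous_const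
  have hgrc : Continuous (fun u => gr g u) := by
    unfold gr
    exact continuous_finsetSum _ (fun i _ => (hpdc i).pow 2)
  set Z : ℝ := ∫ x in Icc (0 : Fin n → ℝ) 1, ρ x with hZ
  have intc : ∀ F : (Fin n → ℝ) → ℝ, Continuous F → IntegrableOn F (Icc (0 : Fin n → ℝ) 1) :=
    fun F hF => hF.continuousOn.integrableOn_compact isCompact_Icc
  have hZpos : 0 < Z := by
    rw [hZ, int_cells hN0 ρ hρ]
    have hne : (cb n N).Nonempty := ⟨fun _ => 0, mem_cb.2 (fun _ => hN0)⟩
    apply Finset.sum_pos _ hne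
    intro x hx
    have h1 : ∫ _ in cell N x, ρ (nd N x) / (1 + δ) ≤ ∫ u in cell N x, ρ u := by
      apply mono_cell continuous_const hρ
      intro u hu
      rw [div_le_iff₀ (by linarith), mul_comm]
      exact hrat x hx _ (lo_mem N x) u hu
    rw [int_const hN0] at h1
    refine lt_of_lt_of_le ?_ h1
    have := hpos (nd N x)
    positivity
  set b : ℝ := (∫ x in Icc (0 : Fin n → ℝ) 1, ρ x * g x) / Z with hb
  refine ⟨b, ?_⟩
  have cq : Continuous (fun u => ρ u * (g u - b) ^ 2) := hρ.mul ((hgc.sub continuous_const).pow 2)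
  -- the Poincare inequality
  have P1 : ∫ u in Icc (0 : Fin n → ℝ) 1, ρ u * (g u - b) ^ 2 ≤
      K * ∫ u in Icc (0 : Fin n → ℝ) 1, ρ u * gr g u := by
    have h1 := hPD g hg
    have h2 : ∫ u in Icc (0 : Fin n → ℝ) 1, ρ u * (g u - b) ^ 2 =
        (∫ u in Icc (0 : Fin n → ℝ) 1, ρ u * g u ^ 2) - 2 * b * (∫ u in Icc (0 : Fin n → ℝ) 1, ρ u * g u) +
          b ^ 2 * Z := by
      have e : ∀ u, ρ u * (g u - b) ^ 2 = ρ u * g u ^ 2 - 2 * b * (ρ u * g u) + b ^ 2 * ρ u := by
        intro u; ring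
      simp only [e]
      rw [integral_add, integral_sub, integral_const_mul, integral_const_mul]
      · exact intc _ (hρ.mul (hgc.pow 2))
      · exact (intc _ (hρ.mul hgc)).const_mul _
      · exact (intc _ (hρ.mul (hgc.pow 2))).sub ((intc _ (hρ.mul hgc)).const_mul _)
      · exact (intc _ hρ).const_mul _
    have h3 : b * Z = ∫ u in Icc (0 : Fin n → ℝ) 1, ρ u * g u := by
      rw [hb]; field_simp
    rw [h2, ← h3]
    rw [← h3] at h1
    have h4 : Z * ((∫ u in Icc (0 : Fin n → ℝ) 1, ρ u * g u ^ 2) - b ^ 2 * Z) ≤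
        Z * (K * ∫ u in Icc (0 : Fin n → ℝ) 1, ρ u * gr g u) := by
      calc Z * ((∫ u in Icc (0 : Fin n → ℝ) 1, ρ u * g u ^ 2) - b ^ 2 * Z) =
            Z * (∫ u in Icc (0 : Fin n → ℝ) 1, ρ u * g u ^ 2) - (b * Z) ^ 2 := by ring
        _ ≤ _ := h1
    have h5 := le_of_mul_le_mul_left h4 hZpos
    nlinarith [h5]
  -- the edge terms
  set e : (Fin n → ℕ) → Fin n → ℝ := fun z i => ρ (nd N z) * (f (z + Pi.single i 1) - f z) ^ 2 with he
  have he0 : ∀ z i, 0 ≤ e z i := fun z i => mul_nonneg (hpos _).le (sq_nonneg _)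
  set E0 : ℝ := ∑ z ∈ box n N, ∑ i : Fin n, (if z i < N then e z i else 0) with hE0
  have hE00 : 0 ≤ E0 := Finset.sum_nonneg (fun z _ => Finset.sum_nonneg (fun i _ => by
    split_ifs
    · exact he0 z i
    · exact le_refl _))
  have hedge := edges (n := n) N e he0
  -- ρ (lower corner) * dE
  have hdE : ∀ x ∈ cb n N, ∀ i : Fin n, ρ (nd N x) * dE f x i ≤
      (1 + δ) * ∑ A ∈ (Finset.univ : Finset (Finset (Fin n))).filter (fun A => i ∉ A), e (vx x A) i := by
    intro x hx i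
    unfold dE
    rw [Finset.mul_sum, Finset.mul_sum]
    apply Finset.sum_le_sum
    intro A _
    rw [he]
    simp only
    have h1 := hrat x hx _ (lo_mem N x) _ (vx_mem N x A)
    have h2 := mul_le_mul_of_nonneg_right h1 (sq_nonneg (f (vx x A + Pi.single i 1) - f (vx x A)))
    linarith
  have hdE0 : ∀ (x : Fin n → ℕ) (i : Fin n), 0 ≤ dE f x i := fun x i => by
    unfold dE; exact Finset.sum_nonneg (fun _ _ => sq_nonneg _)
  -- the gradient
  have G1 : ∫ u in Icc (0 : Fin n → ℝ) 1, ρ u * gr g u ≤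
      (1 + δ) ^ 4 * (N : ℝ) ^ 2 / (N : ℝ) ^ n * E0 := by
    rw [int_cells hN0 (fun u => ρ u * gr g u) (hρ.mul hgrc)]
    set c : ℝ := (1 + δ) ^ 2 * (N : ℝ) ^ 2 / ((N : ℝ) ^ n * 2 ^ (n - 1)) with hc
    have hc0 : 0 ≤ c := by positivity
    have h1 : ∀ x ∈ cb n N, ∫ u in cell N x, ρ u * gr g u ≤
        (1 + δ) ^ 2 * c * ∑ i : Fin n,
          ∑ A ∈ (Finset.univ : Finset (Finset (Fin n))).filter (fun A => i ∉ A), e (vx x A) i := by
      intro x hx
      have h2 : ∫ u in cell N x, ρ u * gr g u ≤ ∫ u in cell N x, ((1 + δ) * ρ (nd N x)) * gr g u := by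
        apply mono_cell (hρ.mul hgrc) (continuous_const.mul hgrc)
        intro u hu
        apply mul_le_mul_of_nonneg_right (hrat x hx u hu _ (lo_mem N x))
        unfold gr
        exact Finset.sum_nonneg (fun _ _ => sq_nonneg _)
      refine h2.trans ?_
      rw [integral_const_mul]
      have h3 : ∫ u in cell N x, gr g u = ∑ i : Fin n, ∫ u in cell N x, pd g i u ^ 2 := by
        unfold gr
        rw [integral_finsetSum]
        intro i _
        exact int_on ((hpdc i).pow 2) N x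
      rw [h3, Finset.mul_sum, Finset.mul_sum]
      apply Finset.sum_le_sum
      intro i _
      have h4 := (hgx x (mem_cb.1 hx)).2 i
      calc (1 + δ) * ρ (nd N x) * ∫ u in cell N x, pd g i u ^ 2 ≤ (1 + δ) * ρ (nd N x) * (c * dE f x i) := by
            apply mul_le_mul_of_nonneg_left h4
            have := hpos (nd N x); positivity
        _ = (1 + δ) * c * (ρ (nd N x) * dE f x i) := by ring
        _ ≤ (1 + δ) * c * ((1 + δ) * ∑ A ∈ (Finset.univ : Finset (Finset (Fin n))).filter (fun A => i ∉ A), e (vx x A) i) := by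
            apply mul_le_mul_of_nonneg_left (hdE x hx i); positivity
        _ = _ := by ring
    refine (Finset.sum_le_sum h1).trans ?_
    rw [← Finset.mul_sum]
    calc (1 + δ) ^ 2 * c * ∑ x ∈ cb n N, ∑ i : Fin n,
          ∑ A ∈ (Finset.univ : Finset (Finset (Fin n))).filter (fun A => i ∉ A), e (vx x A) i
        ≤ (1 + δ) ^ 2 * c * (2 ^ (n - 1) * E0) := by
          apply mul_le_mul_of_nonneg_left hedge; positivity
      _ = _ := by
          rw [hc]
          field_simp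
  -- the left side
  have L1 : ∑ x ∈ cb n N, ρ (nd N x) * (f x - b) ^ 2 / (N : ℝ) ^ n ≤
      (1 + δ) ^ 2 * (∫ u in Icc (0 : Fin n → ℝ) 1, ρ u * (g u - b) ^ 2) + C / (N : ℝ) ^ n * E0 := by
    have h1 : ∀ x ∈ cb n N, ρ (nd N x) * (f x - b) ^ 2 / (N : ℝ) ^ n ≤
        (1 + δ) ^ 2 * (∫ u in cell N x, ρ u * (g u - b) ^ 2) +
          (1 + δ) ^ 3 * (1 + 1 / δ) * n / (N : ℝ) ^ n * ∑ i : Fin n,
            ∑ A ∈ (Finset.univ : Finset (Finset (Fin n))).filter (fun A => i ∉ A), e (vx x A) i := by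
      intro x hx
      set S : ℝ := n * ∑ i, dE f x i with hS
      have hS0 : 0 ≤ S := mul_nonneg (Nat.cast_nonneg _) (Finset.sum_nonneg (fun i _ => hdE0 x i))
      have h2 : ρ (nd N x) * (f x - b) ^ 2 / (N : ℝ) ^ n ≤
          ∫ u in cell N x, ((1 + δ) ^ 2 * (ρ u * (g u - b) ^ 2) + (1 + δ) ^ 2 * (1 + 1 / δ) * ρ (nd N x) * S) := by
        rw [← int_const hN0 x]
        apply mono_cell (F := fun _ => ρ (nd N x) * (f x - b) ^ 2)
          (G := fun u => (1 + δ) ^ 2 * (ρ u * (g u - b) ^ 2) + (1 + δ) ^ 2 * (1 + 1 / δ) * ρ (nd N x) * S)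
          continuous_const ((continuous_const.mul cq).add continuous_const)
        intro u hu
        have i1 := hrat x hx _ (lo_mem N x) u hu
        have i2 := hrat x hx u hu _ (lo_mem N x)
        have i3 := square_ineq (f x) b (g u) δ hδ
        have i4 := (hgx x (mem_cb.1 hx)).1 u hu
        have i5 : (f x - b) ^ 2 ≤ (1 + δ) * (g u - b) ^ 2 + (1 + 1 / δ) * S := by
          refine i3.trans ?_
          have : (1 + 1 / δ) * (g u - f x) ^ 2 ≤ (1 + 1 / δ) * S := by
            apply mul_le_mul_of_nonneg_left i4; positivity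
          linarith
        have hρu := hpos u
        have hρx := hpos (nd N x)
        calc ρ (nd N x) * (f x - b) ^ 2 ≤ ((1 + δ) * ρ u) * (f x - b) ^ 2 :=
              mul_le_mul_of_nonneg_right i1 (sq_nonneg _)
          _ ≤ ((1 + δ) * ρ u) * ((1 + δ) * (g u - b) ^ 2 + (1 + 1 / δ) * S) :=
              mul_le_mul_of_nonneg_left i5 (by positivity)
          _ = (1 + δ) ^ 2 * (ρ u * (g u - b) ^ 2) + (1 + δ) * (1 + 1 / δ) * S * ρ u := by ring
          _ ≤ (1 + δ) ^ 2 * (ρ u * (g u - b) ^ 2) + (1 + δ) * (1 + 1 / δ) * S * ((1 + δ) * ρ (nd N x)) := by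
              have : (1 + δ) * (1 + 1 / δ) * S * ρ u ≤ (1 + δ) * (1 + 1 / δ) * S * ((1 + δ) * ρ (nd N x)) := by
                apply mul_le_mul_of_nonneg_left i2; positivity
              linarith
          _ = _ := by ring
      refine h2.trans ?_
      have h2' : ∫ u in cell N x, ((1 + δ) ^ 2 * (ρ u * (g u - b) ^ 2) + (1 + δ) ^ 2 * (1 + 1 / δ) * ρ (nd N x) * S) =
          (1 + δ) ^ 2 * (∫ u in cell N x, ρ u * (g u - b) ^ 2) +
            (1 + δ) ^ 2 * (1 + 1 / δ) * ρ (nd N x) * S / (N : ℝ) ^ n := by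
        rw [integral_add ((int_on cq N x).const_mul _) (int_on continuous_const N x), integral_const_mul,
          int_const hN0]
      rw [h2']
      apply add_le_add le_rfl
      have h3 : ρ (nd N x) * S ≤ n * ((1 + δ) * ∑ i : Fin n,
          ∑ A ∈ (Finset.univ : Finset (Finset (Fin n))).filter (fun A => i ∉ A), e (vx x A) i) := by
        calc ρ (nd N x) * S = n * ∑ i, ρ (nd N x) * dE f x i := by
              rw [hS, ← Finset.mul_sum]; ring
          _ ≤ n * ∑ i : Fin n, (1 + δ) *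
              ∑ A ∈ (Finset.univ : Finset (Finset (Fin n))).filter (fun A => i ∉ A), e (vx x A) i := by
              apply mul_le_mul_of_nonneg_left _ (Nat.cast_nonneg _)
              exact Finset.sum_le_sum (fun i _ => hdE x hx i)
          _ = _ := by rw [← Finset.mul_sum]
      calc (1 + δ) ^ 2 * (1 + 1 / δ) * ρ (nd N x) * S / (N : ℝ) ^ n =
            (1 + δ) ^ 2 * (1 + 1 / δ) / (N : ℝ) ^ n * (ρ (nd N x) * S) := by ring
        _ ≤ (1 + δ) ^ 2 * (1 + 1 / δ) / (N : ℝ) ^ n * (n * ((1 + δ) * ∑ i : Fin n,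
          ∑ A ∈ (Finset.univ : Finset (Finset (Fin n))).filter (fun A => i ∉ A), e (vx x A) i)) := by
            apply mul_le_mul_of_nonneg_left h3; positivity
        _ = _ := by ring
    refine (Finset.sum_le_sum h1).trans ?_
    rw [Finset.sum_add_distrib, ← Finset.mul_sum, ← Finset.mul_sum,
      ← int_cells hN0 (fun u => ρ u * (g u - b) ^ 2) cq]
    apply add_le_add le_rfl
    calc (1 + δ) ^ 3 * (1 + 1 / δ) * n / (N : ℝ) ^ n * ∑ x ∈ cb n N, ∑ i : Fin n,
          ∑ A ∈ (Finset.univ : Finset (Finset (Fin n))).filter (fun A => i ∉ A), e (vx x A) i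
        ≤ (1 + δ) ^ 3 * (1 + 1 / δ) * n / (N : ℝ) ^ n * (2 ^ (n - 1) * E0) := by
          apply mul_le_mul_of_nonneg_left hedge; positivity
      _ = _ := by rw [hC]; ring
  -- together
  have hNn : (0 : ℝ) < (N : ℝ) ^ n := by positivity
  have M1 : ∑ x ∈ cb n N, ρ (nd N x) * (f x - b) ^ 2 ≤ K' * ((N : ℝ) ^ 2 * E0) := by
    have h1 : (∑ x ∈ cb n N, ρ (nd N x) * (f x - b) ^ 2) / (N : ℝ) ^ n ≤
        (1 + δ) ^ 2 * (K * ((1 + δ) ^ 4 * (N : ℝ) ^ 2 / (N : ℝ) ^ n * E0)) + C / (N : ℝ) ^ n * E0 := by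
      rw [Finset.sum_div]
      refine L1.trans (add_le_add (mul_le_mul_of_nonneg_left ?_ (by positivity)) le_rfl)
      exact P1.trans (mul_le_mul_of_nonneg_left G1 hK.le)
    rw [div_le_iff₀ hNn] at h1
    refine h1.trans ?_
    have h2 : ((1 + δ) ^ 2 * (K * ((1 + δ) ^ 4 * (N : ℝ) ^ 2 / (N : ℝ) ^ n * E0)) + C / (N : ℝ) ^ n * E0) * (N : ℝ) ^ n =
        (K * (1 + δ) ^ 6 + C / (N : ℝ) ^ 2) * ((N : ℝ) ^ 2 * E0) := by
      field_simp
    rw [h2]
    apply mul_le_mul_of_nonneg_right _ (by positivity)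
    linarith
  have hL : ∑ x ∈ box n N, rw ρ N x * (f x - b) ^ 2 ≤ ∑ x ∈ cb n N, ρ (nd N x) * (f x - b) ^ 2 := by
    have hsub : cb n N ⊆ box n N := by
      intro x hx
      rw [mem_box]
      intro i
      exact (mem_cb.1 hx i).le
    rw [← Finset.sum_subset hsub (f := fun x => rw ρ N x * (f x - b) ^ 2)]
    · apply Finset.sum_le_sum
      intro x _
      apply mul_le_mul_of_nonneg_right _ (sq_nonneg _)
      unfold Pool.Agent.J4H58.XC.rw
      split_ifs
      · exact le_refl _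
      · exact (hpos _).le
    · intro x _ hx
      have h1 : ¬ (Function.Injective x ∧ ∀ i, x i < N) := fun h => hx (mem_cb.2 h.2)
      unfold Pool.Agent.J4H58.XC.rw
      rw [if_neg h1, zero_mul]
  have hR : ∑ x ∈ box n N, ∑ i : Fin n, (if x i < N then sw ρ N x i * (f (x + Pi.single i 1) - f x) ^ 2 else 0) =
      (N : ℝ) ^ 2 * E0 := by
    rw [hE0, Finset.mul_sum]
    apply Finset.sum_congr rfl
    intro x _
    rw [Finset.mul_sum]
    apply Finset.sum_congr rfl
    intro i _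
    split_ifs
    · simp only [sw, he]; ring
    · ring
  rw [hR]
  exact hL.trans M1

end Pool.Agent.J4H46.XC
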